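import Mathlib
import Pool.Agent.N312.MBasisLinf

set_option autoImplicit false

/-!
# MP_810de6_an: a Banach space with an extended M-basis containing `ℓ^∞`

The space is `ℓ^∞ × ℓ₁(Γ)`, where `Γ` is the product of the closed unit ball of `ℓ^∞` and `ℕ`. The
M-basis consists of the unit vectors `(e_n, 0)` and of the vectors `(k (y - P_k y), e_{(y, k)})`,
where `P_k y` denotes the restriction of `y` to the first `k` coordinates.
-/

namespace Pool.Agent.Results.MP_810de6_an.MBasisContainingLinf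

/-- The family `x` is an extended M-basis of `E`: its closed linear span is `E` and some total
family `f` of continuous functionals is biorthogonal to `x`. -/
def IsExtendedMBasis (𝕜 : Type) [RCLike 𝕜] {E : Type} [NormedAddCommGroup E] [NormedSpace 𝕜 E]
    {I : Type} (x : I → E) : Prop :=
  (Submodule.span 𝕜 (Set.range x)).topologicalClosure = ⊤ ∧
  ∃ f : I → (E →L[𝕜] 𝕜), (∀ i, f i (x i) = 1) ∧ (∀ i j, i ≠ j → f i (x j) = 0) ∧
    ∀ y : E, (∀ i, f i y = 0) → y = 0

/-- Over `𝕜 = ℝ` and over `𝕜 = ℂ` there is a Banach space `E` which has an extended M-basis and a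
closed linear subspace isomorphic to the space `ℓ^∞` of bounded sequences. -/
theorem result (𝕜 : Type) [RCLike 𝕜] :
    ∃ (E : Type) (_ : NormedAddCommGroup E) (_ : NormedSpace 𝕜 E) (_ : CompleteSpace E),
      (∃ (I : Type) (x : I → E), IsExtendedMBasis 𝕜 x) ∧
      ∃ G : Submodule 𝕜 E, IsClosed (G : Set E) ∧ Nonempty (G ≃L[𝕜] lp (fun _ : ℕ => 𝕜) ⊤) := by
  obtain ⟨I, x, f, h1, h2, h3, h4⟩ := Pool.Agent.N312.MBL.linf 𝕜
  exact ⟨lp (fun _ : ℕ => 𝕜) ⊤ ×
      lp (fun _ : Pool.Agent.N312.MBL.Gam (lp (fun _ : ℕ => 𝕜) ⊤) => 𝕜) 1,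
    inferInstance, inferInstance, inferInstance, ⟨I, x, h3, f, h1, h2, h4⟩,
    Pool.Agent.N312.MBL.contains_fst 𝕜 _ _⟩

end Pool.Agent.Results.MP_810de6_an.MBasisContainingLinf
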